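import Pool.Agent.H66.WC.Defs

/-!
# MP_307c8f_gt: symplectic manifolds in the abstract system

`Sp X κ`: the manifold `X` has a minimal symplectic form with canonical class `κ` (modulo torsion).
`Taubes` is Taubes' description of the Seiberg-Witten basic classes of such manifolds by disjoint
embedded pseudo-holomorphic curves.
-/

set_option autoImplicit false

namespace Pool.Agent.H65.WS

open Pool.Agent.H66.WC

/-- `C` is a class, not torsion, which is represented by an embedded surface of genus `g` with
`κ C = C² ≥ 0` and `g = C² + 1` -/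
structure IsCurve (D : Sys) (X : D.M) (κ C : D.H X) (g : ℕ) : Prop where
  emb : D.emb X C g
  ne : C ≠ 0
  can : D.Q X κ C = D.Q X C C
  nonneg : 0 ≤ D.Q X C C
  gen : (g : ℤ) = D.Q X C C + 1

/-- Taubes' theorems for minimal symplectic manifolds (`SW = Gr`): Seiberg-Witten simple type,
`κ` and `-κ` are basic classes, and for every basic class `K` the class `(κ - K) / 2` is the sum
of the classes of disjoint embedded curves, tori of square zero possibly repeated -/
def Taubes (D : Sys) (Sp : ∀ X : D.M, D.H X → Prop) : Prop := ∀ X κ, Sp X κ →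
  D.SST X ∧ D.SW X κ ≠ 0 ∧ D.SW X (-κ) ≠ 0 ∧ ∀ K, D.SW X K ≠ 0 → ∃ L : List (D.H X × ℕ),
    κ - K = (2 : ℤ) • (L.map Prod.fst).sum ∧ (∀ p ∈ L, IsCurve D X κ p.1 p.2) ∧
    L.Pairwise fun p q => D.Q X p.1 q.1 = 0

end Pool.Agent.H65.WS
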