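import Pool.Agent.H65.WS.Defs
import Pool.Agent.H38.WC.Proof

/-! # MP_307c8f_gt: the Seiberg-Witten basic classes of symplectic manifolds -/

set_option autoImplicit false

namespace Pool.Agent.H65.WS

open Pool.Agent.H66.WC Pool.Agent.H38.WC

variable {D : Sys}

/-! ### bilinearity -/

theorem q_neg (A : Known D) (X : D.M) (a b : D.H X) : D.Q X (-a) b = -D.Q X a b := by
  have h := A.forms.2.1 X (-a) a b
  rw [neg_add_cancel, qzl A] at h
  linarith

theorem q_two (A : Known D) (X : D.M) (a c : D.H X) :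
    D.Q X ((2 : ℤ) • a) c = 2 * D.Q X a c := by
  rw [two_smul, A.forms.2.1]
  ring

theorem q_sum (A : Known D) (X : D.M) (L : List (D.H X × ℕ)) (c : D.H X) :
    D.Q X (L.map Prod.fst).sum c = (L.map fun p => D.Q X p.1 c).sum := by
  induction L with
  | nil => simpa using qzl A X c
  | cons p L ih =>
    rw [List.map_cons, List.sum_cons, A.forms.2.1, ih, List.map_cons, List.sum_cons]

/-- a sum of nonnegative integers is positive only if some of them is -/
theorem exists_pos {α : Type} (f : α → ℤ) (L : List α) (h : 0 < (L.map f).sum) :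
    ∃ p ∈ L, 0 < f p := by
  induction L with
  | nil => simp at h
  | cons a L ih =>
    rw [List.map_cons, List.sum_cons] at h
    by_cases ha : 0 < f a
    · exact ⟨a, List.mem_cons_self, ha⟩
    · obtain ⟨p, hp, h1⟩ := ih (by linarith)
      exact ⟨p, List.mem_cons_of_mem _ hp, h1⟩

/-- a sum of integers is odd only if some of them is -/
theorem exists_odd {α : Type} (f : α → ℤ) (L : List α) (h : Odd (L.map f).sum) :
    ∃ p ∈ L, Odd (f p) := by
  induction L with
  | nil => simp at h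
  | cons a L ih =>
    rw [List.map_cons, List.sum_cons] at h
    by_cases ha : Odd (f a)
    · exact ⟨a, List.mem_cons_self, ha⟩
    · obtain ⟨p, hp, h1⟩ := ih (by
        rw [Int.not_odd_iff_even] at ha
        rcases Int.even_or_odd (L.map f).sum with h2 | h2
        · exact absurd h (Int.not_odd_iff_even.2 (ha.add h2))
        · exact h2)
      exact ⟨p, List.mem_cons_of_mem _ hp, h1⟩

/-- a nonnegative integer is at most a sum of nonnegative integers in which it occurs -/
theorem le_sum {α : Type} (f : α → ℤ) (L : List α) (h0 : ∀ p ∈ L, 0 ≤ f p) :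
    ∀ p ∈ L, f p ≤ (L.map f).sum := by
  induction L with
  | nil => simp
  | cons a L ih =>
    have h1 := h0 a List.mem_cons_self
    have h2 : 0 ≤ (L.map f).sum := List.sum_nonneg (by
      intro x hx
      obtain ⟨p, hp, rfl⟩ := List.mem_map.1 hx
      exact h0 p (List.mem_cons_of_mem _ hp))
    intro p hp
    rw [List.map_cons, List.sum_cons]
    rcases List.mem_cons.1 hp with rfl | hp
    · linarith
    · linarith [ih (fun q hq => h0 q (List.mem_cons_of_mem _ hq)) p hp]

/-- the sum of orthogonal classes meets each of them in its square -/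
theorem sum_mem (A : Known D) (X : D.M) (L : List (D.H X × ℕ))
    (hL : L.Pairwise fun p q => D.Q X p.1 q.1 = 0) (p : D.H X × ℕ) (hp : p ∈ L) :
    D.Q X (L.map Prod.fst).sum p.1 = D.Q X p.1 p.1 := by
  rw [q_sum A]
  induction L with
  | nil => simp at hp
  | cons a L ih =>
    rw [List.pairwise_cons] at hL
    rw [List.map_cons, List.sum_cons]
    rcases List.mem_cons.1 hp with rfl | hp'
    · have : (L.map fun q => D.Q X q.1 p.1).sum = 0 := List.sum_eq_zero (by
        intro x hx
        obtain ⟨q, hq, rfl⟩ := List.mem_map.1 hx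
        rw [A.forms.1]
        exact hL.1 q hq)
      rw [this, add_zero]
    · rw [hL.1 p hp', zero_add]
      exact ih hL.2 hp'

/-- `κ` is a sum of curves -/
theorem canonical (A : Known D) {Sp : ∀ X : D.M, D.H X → Prop} (T : Taubes D Sp) (X : D.M)
    (κ : D.H X) (hX : Sp X κ) : ∃ M : List (D.H X × ℕ), (∀ p ∈ M, IsCurve D X κ p.1 p.2) ∧
      (∀ b, D.Q X κ b = (M.map fun p => D.Q X p.1 b).sum) ∧
      D.Q X κ κ = (M.map fun p => D.Q X p.1 p.1).sum := by
  obtain ⟨hS, hk, hnk, hT⟩ := T X κ hX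
  obtain ⟨M, hM1, hM2, -⟩ := hT (-κ) hnk
  have hM : ∀ b, D.Q X κ b = (M.map fun p => D.Q X p.1 b).sum := by
    intro b
    have h1 : D.Q X (κ - -κ) b = 2 * D.Q X (M.map Prod.fst).sum b := by
      rw [hM1, q_two A]
    rw [qsubl A, q_neg A, q_sum A] at h1
    linarith
  refine ⟨M, hM2, hM, ?_⟩
  have h2 : (M.map fun p => D.Q X p.1 κ) = M.map fun p => D.Q X p.1 p.1 :=
    List.map_congr_left fun p hp => by rw [A.forms.1, (hM2 p hp).can]
  rw [hM κ, h2]

/-- every Seiberg-Witten basic class of a minimal symplectic manifold with `κ² > 0` is extremal -/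
theorem all_extremal (A : Known D) {Sp : ∀ X : D.M, D.H X → Prop} (T : Taubes D Sp) (X : D.M)
    (κ : D.H X) (hX : Sp X κ) (hκ : 0 < D.Q X κ κ) (K : D.H X) (hK : D.SW X K ≠ 0) :
    Extremal D X K := by
  obtain ⟨M, hM2, hM, hMs⟩ := canonical A T X κ hX
  obtain ⟨C1, hC1, hC1pos⟩ : ∃ p ∈ M, 0 < D.Q X p.1 p.1 :=
    exists_pos (fun p : D.H X × ℕ => D.Q X p.1 p.1) M (by rw [← hMs]; exact hκ)
  obtain ⟨hS, hk, hnk, hT⟩ := T X κ hX
  obtain ⟨L, hL1, hL2, hL3⟩ := hT K hK
  have hKb : ∀ b, D.Q X K b = D.Q X κ b - 2 * D.Q X (L.map Prod.fst).sum b := by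
    intro b
    have h1 : D.Q X (κ - K) b = 2 * D.Q X (L.map Prod.fst).sum b := by rw [hL1, q_two A]
    rw [qsubl A] at h1
    linarith
  -- a curve of positive square on which the value is extremal
  have key : ∀ p : D.H X × ℕ, IsCurve D X κ p.1 p.2 → 0 < D.Q X p.1 p.1 →
      |D.Q X K p.1| = D.Q X p.1 p.1 → Extremal D X K := by
    intro p hp hpos h
    have hg := hp.gen
    exact ⟨p.1, p.2, by omega, hp.emb, hp.nonneg, Or.inl (by omega), by rw [h]; omega⟩
  by_cases hp : ∃ p ∈ L, 0 < D.Q X p.1 p.1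
  · -- a curve of `(κ - K) / 2`
    obtain ⟨p, hpL, hpos⟩ := hp
    refine key p (hL2 p hpL) hpos ?_
    rw [hKb, sum_mem A X L hL3 p hpL, (hL2 p hpL).can, abs_of_neg (by linarith)]
    ring
  · -- a curve of `κ`
    push Not at hp
    have h0 : D.Q X κ (L.map Prod.fst).sum = 0 := by
      rw [A.forms.1, q_sum A]
      apply List.sum_eq_zero
      intro x hx
      obtain ⟨p, hpL, rfl⟩ := List.mem_map.1 hx
      rw [A.forms.1, (hL2 p hpL).can]
      exact le_antisymm (hp p hpL) (hL2 p hpL).nonneg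
    have h1 : ∀ q ∈ M, 0 ≤ D.Q X q.1 (L.map Prod.fst).sum := by
      intro q hq
      have hC := hM2 q hq
      have hg := hC.gen
      have hn := hC.nonneg
      have h2 := A.adj X q.1 q.2 (by omega) hC.emb hC.ne hC.nonneg K (Or.inr hK)
      have h3 := le_abs_self (D.Q X K q.1)
      rw [hKb q.1, hC.can] at h3
      rw [hKb q.1, hC.can] at h2
      rw [A.forms.1]
      linarith
    have h2 := le_sum (fun q => D.Q X q.1 (L.map Prod.fst).sum) M h1 C1 hC1
    rw [← hM, h0] at h2
    have h3 := le_antisymm h2 (h1 C1 hC1)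
    refine key C1 (hM2 C1 hC1) hC1pos ?_
    rw [hKb, A.forms.1 X (L.map Prod.fst).sum, h3, (hM2 C1 hC1).can, mul_zero, sub_zero,
      abs_of_pos hC1pos]

/-- the theorem -/
theorem main (A : KnownU D) (Sp : ∀ X : D.M, D.H X → Prop) (T : Taubes D Sp) (X : D.M)
    (κ : D.H X) (hX : Sp X κ) :
    (0 < D.Q X κ κ → (D.DST X ∨ D.Q X κ κ ≤ 3) →
      ∀ K, D.SW X K ≠ 0 → D.β X K = wc D X * D.SW X K) ∧
    ((D.Q X κ κ = 1 ∨ D.Q X κ κ = 0 ∧ ∃ w, Odd (D.Q X w w)) → WittenFull D X) := by
  have A' := A.known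
  obtain ⟨hS, hk, -⟩ := T X κ hX
  obtain ⟨M, hM2, hM, hMs⟩ := canonical A' T X κ hX
  have hle : ∀ p ∈ M, D.Q X p.1 p.1 ≤ D.Q X κ κ := by
    rw [hMs]
    exact le_sum (fun p : D.H X × ℕ => D.Q X p.1 p.1) M fun p hp => (hM2 p hp).nonneg
  have hpos : 0 < D.Q X κ κ → ∃ p ∈ M, 0 < D.Q X p.1 p.1 := fun h =>
    exists_pos (fun p : D.H X × ℕ => D.Q X p.1 p.1) M (by rw [← hMs]; exact h)
  constructor
  · intro hκ hD K hK
    have hD' : D.DST X := by
      rcases hD with h | h
      · exact h
      · obtain ⟨C, hC, hC1⟩ := hpos hκ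
        have h1 := hM2 C hC
        have h2 := h1.gen
        have h3 := hle C hC
        exact (A.higher X C.1 C.2 (by omega) h1.emb (by omega) (by omega)).1
    exact coef A X ⟨hD', hS⟩ K (all_extremal A' T X κ hX hκ K hK)
  · rintro (h | ⟨h, w, hw⟩)
    · obtain ⟨C, hC, hC1⟩ := hpos (by omega)
      have h1 := hM2 C hC
      have h2 := h1.gen
      have h3 := hle C hC
      have h4 : D.Q X C.1 C.1 = 1 := by omega
      refine almost A X C.1 C.1 C.2 1 (by omega) le_rfl (by norm_num) h1.emb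
        (one_smul ℕ C.1).symm (by rw [h4]; exact odd_one) ?_ (by omega)
      push_cast
      omega
    · have h1 : Odd (D.Q X κ w) := by
        have h2 := A.char X κ (Or.inr hk) w
        rcases Int.even_or_odd (D.Q X κ w) with h3 | h3
        · exact absurd hw (Int.not_odd_iff_even.2 ((Int.even_add.1 h2).1 h3))
        · exact h3
      rw [hM] at h1
      obtain ⟨C, hC, hC1⟩ := exists_odd (fun p : D.H X × ℕ => D.Q X p.1 w) M h1
      have h2 := hM2 C hC
      have h3 := h2.gen
      have h4 := hle C hC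
      have h5 := h2.nonneg
      have h6 : D.Q X C.1 C.1 = 0 := by omega
      have hg : C.2 = 1 := by omega
      have hodd : D.Oddc X C.1 := ⟨w, by rw [A'.forms.1]; exact hC1⟩
      have hT : D.Tight X C.1 1 :=
        ⟨le_rfl, by rw [← hg]; exact h2.emb, by rw [h6]; norm_num, h2.ne⟩
      have hX' : D.Simple X := A'.tight X C.1 1 hT
      refine (Pool.Agent.H38.WC.main A X hX').2 fun K hK => ?_
      have h7 := A'.adj X C.1 1 le_rfl hT.2.1 h2.ne h5 K (by
        rcases hK with h | h
        · exact Or.inl ⟨hX'.1, h⟩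
        · exact Or.inr h)
      have h8 := abs_nonneg (D.Q X K C.1)
      rw [h6] at h7
      refine ⟨C.1, 1, le_rfl, hT.2.1, h5, Or.inr hodd, ?_⟩
      rw [h6]
      push_cast at h7 ⊢
      omega

end Pool.Agent.H65.WS
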